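import Pool.Agent.Helper79.ZC.Stmts

set_option autoImplicit false

/-! Module LOW: lower bound for the Boltzmann probability of size `n`. -/

namespace Pool.Agent.Helper79.ZC

open scoped Classical
open Filter Topology MeasureTheory

theorem low_exp_lt {α : ℝ} (hα : 0 < α) {k : ℕ} (hk : 1 ≤ k) : Real.exp (-α * k) < 1 := by
  rw [Real.exp_lt_one_iff]
  have : (0 : ℝ) < k := by exact_mod_cast hk
  nlinarith

theorem low_phi (hF : ST_FAC) (M : ℕ) {α : ℝ} (hα : 0 < α) (θ : ℝ) : ∃ R : ℂ,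
    ‖R‖ ≤ |θ| ^ 3 * ∑ k ∈ Finset.Icc 1 M,
      (k : ℝ) ^ 3 * Real.exp (-α * k) / (1 - Real.exp (-α * k)) ^ 3 ∧
    phi M α θ = Complex.exp (Complex.I * ((θ * ∑ k ∈ Finset.Icc 1 M,
        (k : ℝ) * Real.exp (-α * k) / (1 - Real.exp (-α * k)) : ℝ) : ℂ)
      - ((θ ^ 2 * (∑ k ∈ Finset.Icc 1 M,
        (k : ℝ) ^ 2 * Real.exp (-α * k) / (1 - Real.exp (-α * k)) ^ 2) / 2 : ℝ) : ℂ) + R) := by
  have h : ∀ k ∈ Finset.Icc 1 M, ∃ r : ℂ,
      ‖r‖ ≤ |θ| ^ 3 * ((k : ℝ) ^ 3 * Real.exp (-α * k) / (1 - Real.exp (-α * k)) ^ 3) ∧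
      ((1 - Real.exp (-α * k) : ℝ) : ℂ) / (1 - Complex.exp (-(α : ℂ) * k + Complex.I * θ * k)) =
        Complex.exp (Complex.I * ((θ * ((k : ℝ) * Real.exp (-α * k) / (1 - Real.exp (-α * k))) : ℝ) : ℂ)
          - ((θ ^ 2 * ((k : ℝ) ^ 2 * Real.exp (-α * k) / (1 - Real.exp (-α * k)) ^ 2) / 2 : ℝ) : ℂ)
          + r) := by
    intro k hk
    have hk1 : 1 ≤ k := (Finset.mem_Icc.1 hk).1
    obtain ⟨-, r, hr, he⟩ := hF (Real.exp (-α * k)) (θ * k) (Real.exp_pos _).le (low_exp_lt hα hk1)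
    refine ⟨r, ?_, ?_⟩
    · refine hr.trans (le_of_eq ?_)
      rw [abs_mul, abs_of_nonneg (Nat.cast_nonneg k : (0 : ℝ) ≤ k)]
      ring
    · have e1 : Complex.exp (-(α : ℂ) * k + Complex.I * θ * k)
          = ((Real.exp (-α * k) : ℝ) : ℂ) * Complex.exp (Complex.I * ((θ * k : ℝ) : ℂ)) := by
        rw [Complex.ofReal_exp, ← Complex.exp_add]
        congr 1
        push_cast
        ring
      rw [e1, he]
      congr 1
      congr 1
      congr 1
      · congr 2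
        ring
      · congr 1
        ring
  choose! r hr1 hr2 using h
  refine ⟨∑ k ∈ Finset.Icc 1 M, r k, ?_, ?_⟩
  · rw [Finset.mul_sum]
    exact norm_sum_le_of_le _ hr1
  · unfold phi
    rw [Finset.prod_congr rfl hr2, ← Complex.exp_sum]
    congr 1
    rw [Finset.sum_add_distrib, Finset.sum_sub_distrib]
    congr 1
    congr 1
    · rw [Finset.mul_sum, Complex.ofReal_sum, Finset.mul_sum]
    · rw [Finset.mul_sum, Finset.sum_div, Complex.ofReal_sum]

theorem low_phi_cont (M : ℕ) {α : ℝ} (hα : 0 < α) : Continuous (fun θ : ℝ => phi M α θ) := by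
  unfold phi
  apply continuous_finsetProd
  intro k hk
  have hk1 : 1 ≤ k := (Finset.mem_Icc.1 hk).1
  apply Continuous.div continuous_const (by fun_prop)
  intro θ hc
  have h1 : Complex.exp (-(α : ℂ) * k + Complex.I * θ * k) = 1 := (sub_eq_zero.1 hc).symm
  have h2 : ‖Complex.exp (-(α : ℂ) * k + Complex.I * θ * k)‖ = Real.exp (-α * k) := by
    rw [Complex.norm_exp]
    congr 1
    have : (-(α : ℂ) * k + Complex.I * θ * k) = ((-α * k : ℝ) : ℂ) + ((θ * k : ℝ) : ℂ) * Complex.I := by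
      push_cast
      ring
    rw [this]
    simp
  rw [h1, norm_one] at h2
  have := low_exp_lt hα hk1
  linarith

/-- real part of `exp` near the real axis -/
theorem low_re {V Y : ℝ} {R : ℂ} (hY : |Y| ≤ 1 / 8) (hR : ‖R‖ ≤ 1 / 8) :
    1 / 2 * Real.exp (-V) ≤ (Complex.exp (Complex.I * (Y : ℂ) - (V : ℂ) + R)).re := by
  have e : Complex.I * (Y : ℂ) - (V : ℂ) + R = ((-V + R.re : ℝ) : ℂ) + ((Y + R.im : ℝ) : ℂ) * Complex.I := by
    apply Complex.ext
    · simp
    · simp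
  rw [e, Complex.exp_re]
  simp only [Complex.add_re, Complex.ofReal_re, Complex.mul_re, Complex.I_re, mul_zero,
    Complex.ofReal_im, Complex.I_im, mul_one, sub_self, add_zero, Complex.add_im, Complex.mul_im,
    zero_add]
  have h1 : |R.re| ≤ 1 / 8 := (Complex.abs_re_le_norm R).trans hR
  have h2 : |R.im| ≤ 1 / 8 := (Complex.abs_im_le_norm R).trans hR
  have h3 : |Y + R.im| ≤ 1 / 4 := (abs_add_le _ _).trans (by linarith)
  have h4 : 1 - 1 / 32 ≤ Real.cos (Y + R.im) := by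
    have := Real.one_sub_sq_div_two_le_cos (x := Y + R.im)
    have h5 : (Y + R.im) ^ 2 ≤ 1 / 16 := by
      rw [← sq_abs]
      nlinarith [abs_nonneg (Y + R.im)]
    linarith
  have h6 : 7 / 8 ≤ Real.exp R.re := by
    have := Real.add_one_le_exp R.re
    have := (abs_le.1 h1).1
    linarith
  rw [Real.exp_add]
  have h7 := Real.exp_pos (-V)
  have h8 : 1 / 2 ≤ Real.exp R.re * Real.cos (Y + R.im) := by nlinarith
  calc 1 / 2 * Real.exp (-V) ≤ (Real.exp R.re * Real.cos (Y + R.im)) * Real.exp (-V) :=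
        mul_le_mul_of_nonneg_right h8 h7.le
    _ = Real.exp (-V) * Real.exp R.re * Real.cos (Y + R.im) := by ring

theorem low_al_pos {n : ℕ} (hn : 1 ≤ n) : 0 < al n := by
  have : (0 : ℝ) < n := by exact_mod_cast hn
  have := Real.pi_pos
  unfold al
  positivity

theorem low_al_mul {n : ℕ} (hn : 1 ≤ n) : al n * Real.sqrt n = Real.pi / Real.sqrt 6 := by
  have h0 : (0 : ℝ) < n := by exact_mod_cast hn
  unfold al
  rw [Real.sqrt_mul (by norm_num)]
  field_simp

theorem low_al_tendsto : Tendsto (fun n : ℕ => al n) atTop (𝓝 0) := by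
  unfold al
  apply Tendsto.div_atTop tendsto_const_nhds
  apply Real.tendsto_sqrt_atTop.comp
  exact tendsto_natCast_atTop_atTop.const_mul_atTop (by norm_num)

/-- the core estimate for one `n` -/
theorem low_core (hI : ST_INV) (hF : ST_FAC) {c C C2 Cm B s : ℝ} (hc : 0 < c) (hC : 0 < C)
    (hC2 : 0 < C2) (hCm : 0 < Cm) (hB : 1 ≤ B) {n : ℕ} (hn : 1 ≤ n)
    (hs : s = Real.sqrt (al n)) (hs1 : s ≤ 1) (hsY : 2 * B * Cm * s ≤ 1 / 8)
    (hsR : B ^ 3 * C2 * s ≤ 1 / 8)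
    (hD : ∀ θ : ℝ, |θ| ≤ Real.pi → ‖phi (2 * n) (al n) θ‖
      ≤ C * (Real.exp (-c * θ ^ 2 / (al n) ^ 3) + Real.exp (-c / (al n))))
    (hS2 : ∑ k ∈ Finset.Icc 1 (2 * n), (k : ℝ) ^ 2 * Real.exp (-(al n) * k) /
      (1 - Real.exp (-(al n) * k)) ^ 2 ≤ C2 / (al n) ^ 3)
    (hS3 : ∑ k ∈ Finset.Icc 1 (2 * n), (k : ℝ) ^ 3 * Real.exp (-(al n) * k) /
      (1 - Real.exp (-(al n) * k)) ^ 3 ≤ C2 / (al n) ^ 4)
    (hM : |∑ k ∈ Finset.Icc 1 (2 * n), (k : ℝ) * Real.exp (-(al n) * k) /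
      (1 - Real.exp (-(al n) * k)) - n| ≤ Cm * Real.sqrt n) :
    s ^ 3 * Real.exp (-(C2 / 2)) - C * Real.exp (-(c * B ^ 2 / 2)) * (Real.sqrt (2 * Real.pi / c) * s ^ 3)
      - 2 * Real.pi * (C * Real.exp (-c / (al n))) ≤ 2 * Real.pi * qq (2 * n) (al n) n := by
  have hα : 0 < al n := low_al_pos hn
  have hs0 : 0 < s := by rw [hs]; exact Real.sqrt_pos.2 hα
  have hsα : al n = s ^ 2 := by rw [hs, Real.sq_sqrt hα.le]
  have hpi := Real.pi_pos
  have hn0 : (0 : ℝ) < n := by exact_mod_cast hn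
  set μ := ∑ k ∈ Finset.Icc 1 (2 * n), (k : ℝ) * Real.exp (-(al n) * k) /
      (1 - Real.exp (-(al n) * k)) with hμ
  set V := ∑ k ∈ Finset.Icc 1 (2 * n), (k : ℝ) ^ 2 * Real.exp (-(al n) * k) /
      (1 - Real.exp (-(al n) * k)) ^ 2 with hV
  set W := ∑ k ∈ Finset.Icc 1 (2 * n), (k : ℝ) ^ 3 * Real.exp (-(al n) * k) /
      (1 - Real.exp (-(al n) * k)) ^ 3 with hW
  have hV0 : 0 ≤ V := Finset.sum_nonneg fun k _ => by positivity
  set f : ℝ → ℂ := fun θ => phi (2 * n) (al n) θ * Complex.exp (-Complex.I * θ * n) with hf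
  have hfc : Continuous f := (low_phi_cont _ hα).mul (by fun_prop)
  have hqq : 2 * Real.pi * qq (2 * n) (al n) n = ∫ θ in (-Real.pi)..Real.pi, (f θ).re := by
    have h1 := hI (2 * n) n (al n) hα
    have h2 : (∫ θ in (-Real.pi)..Real.pi, f θ) = ((2 * Real.pi * qq (2 * n) (al n) n : ℝ) : ℂ) := by
      have h3 : ((2 * Real.pi * qq (2 * n) (al n) n : ℝ) : ℂ)
          = ((2 * Real.pi : ℝ) : ℂ) * ((qq (2 * n) (al n) n : ℝ) : ℂ) := by push_cast; ring
      rw [h3, h1, ← mul_assoc, ← Complex.ofReal_mul]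
      have h4 : 2 * Real.pi * (1 / (2 * Real.pi)) = 1 := by field_simp
      rw [h4, Complex.ofReal_one, one_mul]
    have h5 : (∫ θ in (-Real.pi)..Real.pi, (f θ).re) = (∫ θ in (-Real.pi)..Real.pi, f θ).re := by
      have := Complex.reCLM.intervalIntegral_comp_comm (hfc.intervalIntegrable (μ := volume) (-Real.pi) Real.pi)
      simpa using this
    rw [h5, h2, Complex.ofReal_re]
  have hnorm : ∀ θ : ℝ, ‖f θ‖ = ‖phi (2 * n) (al n) θ‖ := by
    intro θ
    rw [hf]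
    show ‖phi (2 * n) (al n) θ * Complex.exp (-Complex.I * θ * n)‖ = _
    have h1 : ‖Complex.exp (-Complex.I * θ * n)‖ = 1 := by
      rw [Complex.norm_exp]
      have : (-Complex.I * θ * n : ℂ) = ((-(θ * n) : ℝ) : ℂ) * Complex.I := by
        push_cast
        ring
      rw [this]
      simp
    rw [norm_mul, h1, mul_one]
  -- the central region
  have hcen : ∀ θ : ℝ, |θ| ≤ B * s ^ 3 → 1 / 2 * Real.exp (-(θ ^ 2 * V / 2)) ≤ (f θ).re := by
    intro θ hθ
    obtain ⟨R, hR, he⟩ := low_phi hF (2 * n) hα θ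
    rw [← hμ, ← hV] at he
    rw [← hW] at hR
    have e : f θ = Complex.exp (Complex.I * ((θ * (μ - n) : ℝ) : ℂ) - ((θ ^ 2 * V / 2 : ℝ) : ℂ) + R) := by
      rw [hf]
      show phi (2 * n) (al n) θ * Complex.exp (-Complex.I * θ * n) = _
      rw [he, ← Complex.exp_add]
      congr 1
      push_cast
      ring
    rw [e]
    apply low_re
    · rw [abs_mul]
      have h1 : |θ| * |μ - n| ≤ (B * s ^ 3) * (Cm * Real.sqrt n) :=
        mul_le_mul hθ hM (abs_nonneg _) (by positivity)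
      refine h1.trans (le_trans ?_ hsY)
      have h2 : s ^ 2 * Real.sqrt n ≤ 2 := by
        rw [← hsα, low_al_mul hn, div_le_iff₀ (by positivity)]
        have : (2 : ℝ) ≤ Real.sqrt 6 := by
          rw [Real.le_sqrt' (by norm_num)]
          norm_num
        nlinarith [Real.pi_lt_four]
      calc B * s ^ 3 * (Cm * Real.sqrt n) = (B * Cm * s) * (s ^ 2 * Real.sqrt n) := by ring
        _ ≤ (B * Cm * s) * 2 := mul_le_mul_of_nonneg_left h2 (by positivity)
        _ = 2 * B * Cm * s := by ring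
    · refine hR.trans (le_trans ?_ hsR)
      have h1 : |θ| ^ 3 ≤ (B * s ^ 3) ^ 3 := pow_le_pow_left₀ (abs_nonneg _) hθ 3
      have hW0 : 0 ≤ W := Finset.sum_nonneg fun k hk => by
        have := low_exp_lt hα (Finset.mem_Icc.1 hk).1
        have h2 : (0 : ℝ) ≤ 1 - Real.exp (-(al n) * k) := by linarith
        positivity
      calc |θ| ^ 3 * W ≤ (B * s ^ 3) ^ 3 * (C2 / (al n) ^ 4) :=
            mul_le_mul h1 hS3 hW0 (by positivity)
        _ = B ^ 3 * C2 * s := by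
            rw [hsα]
            field_simp
  set F : ℝ → ℝ := fun θ => (f θ).re + (C * Real.exp (-(c * B ^ 2 / 2)) *
    Real.exp (-(c / (2 * (al n) ^ 3)) * θ ^ 2) + C * Real.exp (-c / (al n))) with hFdef
  have hFc : Continuous F := (Complex.continuous_re.comp hfc).add (by fun_prop)
  have hadd0 : ∀ θ : ℝ, 0 ≤ C * Real.exp (-(c * B ^ 2 / 2)) *
      Real.exp (-(c / (2 * (al n) ^ 3)) * θ ^ 2) + C * Real.exp (-c / (al n)) := by
    intro θ
    positivity
  have hFnn : ∀ θ : ℝ, |θ| ≤ Real.pi → 0 ≤ F θ := by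
    intro θ hθ
    rcases le_or_gt (|θ|) (B * s ^ 3) with h | h
    · have h1 := hcen θ h
      have h2 := hadd0 θ
      have h3 := Real.exp_pos (-(θ ^ 2 * V / 2))
      show 0 ≤ (f θ).re + _
      linarith
    · have h1 : -‖f θ‖ ≤ (f θ).re := (abs_le.1 (Complex.abs_re_le_norm _)).1
      rw [hnorm] at h1
      have h2 := hD θ hθ
      have h3 : Real.exp (-c * θ ^ 2 / (al n) ^ 3) ≤ Real.exp (-(c * B ^ 2 / 2)) *
          Real.exp (-(c / (2 * (al n) ^ 3)) * θ ^ 2) := by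
        rw [← Real.exp_add]
        apply Real.exp_le_exp.2
        have h4 : B ^ 2 * (al n) ^ 3 ≤ θ ^ 2 := by
          rw [hsα, ← sq_abs θ]
          have : (B * s ^ 3) ^ 2 ≤ |θ| ^ 2 := pow_le_pow_left₀ (by positivity) h.le 2
          calc B ^ 2 * (s ^ 2) ^ 3 = (B * s ^ 3) ^ 2 := by ring
            _ ≤ _ := this
        have h5 : c * B ^ 2 / 2 ≤ c / (2 * (al n) ^ 3) * θ ^ 2 := by
          calc c * B ^ 2 / 2 = c / (2 * (al n) ^ 3) * (B ^ 2 * (al n) ^ 3) := by field_simp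
            _ ≤ c / (2 * (al n) ^ 3) * θ ^ 2 := mul_le_mul_of_nonneg_left h4 (by positivity)
        have h6 : -c * θ ^ 2 / (al n) ^ 3 = -(c / (2 * (al n) ^ 3) * θ ^ 2) - c / (2 * (al n) ^ 3) * θ ^ 2 := by
          field_simp
          ring
        rw [h6]
        linarith
      have h7 := mul_le_mul_of_nonneg_left h3 hC.le
      show 0 ≤ (f θ).re + _
      nlinarith
  have hFlow : ∀ θ : ℝ, |θ| ≤ s ^ 3 → 1 / 2 * Real.exp (-(C2 / 2)) ≤ F θ := by
    intro θ hθ
    have h1 := hcen θ (hθ.trans (by nlinarith [pow_pos hs0 3]))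
    have h2 := hadd0 θ
    have h3 : Real.exp (-(C2 / 2)) ≤ Real.exp (-(θ ^ 2 * V / 2)) := by
      apply Real.exp_le_exp.2
      have h4 : θ ^ 2 ≤ s ^ 6 := by
        rw [← sq_abs θ]
        calc |θ| ^ 2 ≤ (s ^ 3) ^ 2 := pow_le_pow_left₀ (abs_nonneg _) hθ 2
          _ = s ^ 6 := by ring
      have h5 : θ ^ 2 * V ≤ s ^ 6 * (C2 / (al n) ^ 3) := mul_le_mul h4 hS2 hV0 (by positivity)
      have h6 : s ^ 6 * (C2 / (al n) ^ 3) = C2 := by
        rw [hsα]
        field_simp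
      linarith
    show _ ≤ (f θ).re + _
    linarith
  have hs3 : s ^ 3 ≤ Real.pi := by
    have : s ^ 3 ≤ 1 := pow_le_one₀ hs0.le hs1
    linarith [Real.pi_gt_three]
  have hs3p : 0 < s ^ 3 := by positivity
  have hI1 : ∫ θ in (-(s ^ 3))..(s ^ 3), F θ ≤ ∫ θ in (-Real.pi)..Real.pi, F θ := by
    apply intervalIntegral.integral_mono_interval (by linarith) (by linarith) hs3
    · filter_upwards [self_mem_ae_restrict measurableSet_Ioc] with θ hθ
      exact hFnn θ (abs_le.2 ⟨hθ.1.le, hθ.2⟩)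
    · exact hFc.intervalIntegrable _ _
  have hI2 : s ^ 3 * Real.exp (-(C2 / 2)) ≤ ∫ θ in (-(s ^ 3))..(s ^ 3), F θ := by
    have h1 : ∫ _ in (-(s ^ 3))..(s ^ 3), (1 / 2 * Real.exp (-(C2 / 2)))
        ≤ ∫ θ in (-(s ^ 3))..(s ^ 3), F θ := by
      apply intervalIntegral.integral_mono_on (by linarith) (by simp)
        (hFc.intervalIntegrable _ _)
      intro θ hθ
      exact hFlow θ (abs_le.2 ⟨hθ.1, hθ.2⟩)
    rw [intervalIntegral.integral_const, smul_eq_mul] at h1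
    linarith
  have hI3 : ∫ θ in (-Real.pi)..Real.pi, F θ = (∫ θ in (-Real.pi)..Real.pi, (f θ).re)
      + (C * Real.exp (-(c * B ^ 2 / 2)) * ∫ θ in (-Real.pi)..Real.pi,
        Real.exp (-(c / (2 * (al n) ^ 3)) * θ ^ 2)) + 2 * Real.pi * (C * Real.exp (-c / (al n))) := by
    have hA : IntervalIntegrable (fun θ => (f θ).re) volume (-Real.pi) Real.pi :=
      (Complex.continuous_re.comp hfc).intervalIntegrable _ _
    have hB1 : IntervalIntegrable (fun θ : ℝ => C * Real.exp (-(c * B ^ 2 / 2)) *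
        Real.exp (-(c / (2 * (al n) ^ 3)) * θ ^ 2)) volume (-Real.pi) Real.pi :=
      Continuous.intervalIntegrable (by fun_prop) _ _
    have hB2 : IntervalIntegrable (fun _ : ℝ => C * Real.exp (-c / (al n))) volume
        (-Real.pi) Real.pi := Continuous.intervalIntegrable (by fun_prop) _ _
    have e : (∫ θ in (-Real.pi)..Real.pi, F θ) = ∫ θ in (-Real.pi)..Real.pi,
        ((f θ).re + (C * Real.exp (-(c * B ^ 2 / 2)) *
        Real.exp (-(c / (2 * (al n) ^ 3)) * θ ^ 2) + C * Real.exp (-c / (al n)))) := rfl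
    rw [e, intervalIntegral.integral_add hA (hB1.add hB2), intervalIntegral.integral_add hB1 hB2,
      intervalIntegral.integral_const_mul, intervalIntegral.integral_const, smul_eq_mul]
    ring
  have hb : 0 < c / (2 * (al n) ^ 3) := by positivity
  have hI4 : ∫ θ in (-Real.pi)..Real.pi, Real.exp (-(c / (2 * (al n) ^ 3)) * θ ^ 2)
      ≤ Real.sqrt (2 * Real.pi / c) * s ^ 3 := by
    rw [intervalIntegral.integral_of_le (by linarith)]
    have h1 := setIntegral_le_integral (μ := volume) (s := Set.Ioc (-Real.pi) Real.pi)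
      (integrable_exp_neg_mul_sq hb) (Filter.Eventually.of_forall fun θ => (Real.exp_pos _).le)
    refine h1.trans (le_of_eq ?_)
    rw [integral_gaussian]
    have h2 : Real.pi / (c / (2 * (al n) ^ 3)) = (2 * Real.pi / c) * (s ^ 3) ^ 2 := by
      rw [hsα]
      field_simp
    rw [h2, Real.sqrt_mul (by positivity), Real.sqrt_sq hs3p.le]
  have hI5 : C * Real.exp (-(c * B ^ 2 / 2)) * ∫ θ in (-Real.pi)..Real.pi,
        Real.exp (-(c / (2 * (al n) ^ 3)) * θ ^ 2)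
      ≤ C * Real.exp (-(c * B ^ 2 / 2)) * (Real.sqrt (2 * Real.pi / c) * s ^ 3) :=
    mul_le_mul_of_nonneg_left hI4 (by positivity)
  rw [hqq]
  linarith

/-- **Module LOW.** -/
theorem st_LOW (hI : ST_INV) (hF : ST_FAC) (hD : ST_DEC) (hS : ST_SUMS) (hM : ST_MEAN) : ST_LOW := by
  obtain ⟨c, C, hc, hC, hD⟩ := hD
  obtain ⟨C2, hC2, hS⟩ := hS
  obtain ⟨Cm, hCm, hM⟩ := hM
  have hpi := Real.pi_pos
  set E := Real.exp (-(C2 / 2)) with hE
  have hE0 : 0 < E := Real.exp_pos _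
  set Q := Real.sqrt (2 * Real.pi / c) with hQ
  have hQ0 : 0 < Q := Real.sqrt_pos.2 (by positivity)
  obtain ⟨B, hB1, hBE⟩ : ∃ B : ℝ, 1 ≤ B ∧ C * Real.exp (-(c * B ^ 2 / 2)) * Q ≤ E / 4 := by
    refine ⟨max 1 (8 * C * Q / (c * E)), le_max_left _ _, ?_⟩
    set B := max 1 (8 * C * Q / (c * E)) with hBdef
    have hB1 : 1 ≤ B := le_max_left _ _
    have hB2 : 8 * C * Q / (c * E) ≤ B := le_max_right _ _
    rw [div_le_iff₀ (by positivity)] at hB2
    have h1 : Real.exp (-(c * B ^ 2 / 2)) * (c * B ^ 2 / 2) ≤ 1 := by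
      have h2 := Real.add_one_le_exp (c * B ^ 2 / 2)
      rw [Real.exp_neg]
      have h3 := Real.exp_pos (c * B ^ 2 / 2)
      rw [inv_mul_le_iff₀ h3]
      linarith
    have h4 : Real.exp (-(c * B ^ 2 / 2)) * (c * B) ≤ 2 := by
      have h5 := Real.exp_pos (-(c * B ^ 2 / 2))
      have h6 : c * B ≤ c * B ^ 2 :=
        mul_le_mul_of_nonneg_left (by nlinarith : B ≤ B ^ 2) hc.le
      nlinarith [mul_le_mul_of_nonneg_left h6 h5.le]
    have h7 := Real.exp_pos (-(c * B ^ 2 / 2))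
    have h8 : Real.exp (-(c * B ^ 2 / 2)) * (8 * C * Q) ≤ Real.exp (-(c * B ^ 2 / 2)) * (B * (c * E)) :=
      mul_le_mul_of_nonneg_left hB2 h7.le
    have h9 : Real.exp (-(c * B ^ 2 / 2)) * (B * (c * E)) ≤ 2 * E := by
      calc _ = (Real.exp (-(c * B ^ 2 / 2)) * (c * B)) * E := by ring
        _ ≤ 2 * E := mul_le_mul_of_nonneg_right h4 hE0.le
    linarith
  have hB0 : 0 < B := by linarith
  obtain ⟨δ, hδ, hδ1, hδY, hδR, hδE⟩ : ∃ δ : ℝ, 0 < δ ∧ δ ≤ 1 ∧ 2 * B * Cm * δ ≤ 1 / 8 ∧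
      B ^ 3 * C2 * δ ≤ 1 / 8 ∧ 16 * Real.pi * C * δ ≤ E * c ^ 2 := by
    refine ⟨min (min 1 (1 / (16 * B * Cm))) (min (1 / (8 * B ^ 3 * C2)) (E * c ^ 2 / (16 * Real.pi * C))),
      by positivity, (min_le_left _ _).trans (min_le_left _ _), ?_, ?_, ?_⟩
    · calc 2 * B * Cm * _ ≤ 2 * B * Cm * (1 / (16 * B * Cm)) := by
            apply mul_le_mul_of_nonneg_left _ (by positivity)
            exact (min_le_left _ _).trans (min_le_right _ _)
        _ = 1 / 8 := by field_simp; norm_num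
    · calc B ^ 3 * C2 * _ ≤ B ^ 3 * C2 * (1 / (8 * B ^ 3 * C2)) := by
            apply mul_le_mul_of_nonneg_left _ (by positivity)
            exact (min_le_right _ _).trans (min_le_left _ _)
        _ = 1 / 8 := by field_simp
    · calc 16 * Real.pi * C * _ ≤ 16 * Real.pi * C * (E * c ^ 2 / (16 * Real.pi * C)) := by
            apply mul_le_mul_of_nonneg_left _ (by positivity)
            exact (min_le_right _ _).trans (min_le_right _ _)
        _ = E * c ^ 2 := by field_simp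
  refine ⟨E / (4 * Real.pi), by positivity, ?_⟩
  have hev : ∀ᶠ n : ℕ in atTop, al n < δ ^ 2 :=
    low_al_tendsto.eventually (gt_mem_nhds (by positivity))
  filter_upwards [hev, eventually_ge_atTop 1] with n hnδ hn
  have hα : 0 < al n := low_al_pos hn
  have hn0 : (0 : ℝ) < n := by exact_mod_cast hn
  have hα1 : al n ≤ 1 := hnδ.le.trans (pow_le_one₀ hδ.le hδ1)
  have hMα : 1 ≤ ((2 * n : ℕ) : ℝ) * (al n) ^ 2 := by
    have h1 : (al n) ^ 2 = Real.pi ^ 2 / (6 * n) := by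
      unfold al
      rw [div_pow, Real.sq_sqrt (by positivity)]
    rw [h1]
    push_cast
    have h2 : 2 * (n : ℝ) * (Real.pi ^ 2 / (6 * n)) = Real.pi ^ 2 / 3 := by
      field_simp
      norm_num
    rw [h2]
    nlinarith [Real.pi_gt_three]
  set s := Real.sqrt (al n) with hs
  have hs0 : 0 < s := Real.sqrt_pos.2 hα
  have hsδ : s ≤ δ := by
    rw [hs]
    exact Real.sqrt_le_iff.2 ⟨hδ.le, hnδ.le⟩
  have hsα : al n = s ^ 2 := by rw [hs, Real.sq_sqrt hα.le]
  have key := low_core hI hF hc hC hC2 hCm hB1 hn hs (hsδ.trans hδ1)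
    ((mul_le_mul_of_nonneg_left hsδ (by positivity)).trans hδY)
    ((mul_le_mul_of_nonneg_left hsδ (by positivity)).trans hδR)
    (fun θ hθ => hD (2 * n) (al n) θ hα hα1 hMα hθ) (hS (2 * n) (al n) hα hα1).1
    (hS (2 * n) (al n) hα hα1).2 (hM n hn)
  rw [← hE, ← hQ] at key
  have h32 : (al n) ^ (3 / 2 : ℝ) = s ^ 3 := by
    rw [hs, Real.sqrt_eq_rpow, ← Real.rpow_natCast, ← Real.rpow_mul hα.le]
    norm_num
  rw [h32]
  have hx1 : C * Real.exp (-(c * B ^ 2 / 2)) * (Q * s ^ 3) ≤ E / 4 * s ^ 3 := by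
    calc _ = (C * Real.exp (-(c * B ^ 2 / 2)) * Q) * s ^ 3 := by ring
      _ ≤ E / 4 * s ^ 3 := mul_le_mul_of_nonneg_right hBE (by positivity)
  have hx2 : 2 * Real.pi * (C * Real.exp (-c / (al n))) ≤ E / 4 * s ^ 3 := by
    have h1 : Real.exp (-c / (al n)) ≤ 2 * s ^ 4 / c ^ 2 := by
      have h2 := Real.quadratic_le_exp_of_nonneg (x := c / al n) (by positivity)
      have h3 : (c / al n) ^ 2 / 2 ≤ Real.exp (c / al n) := by
        have : 0 ≤ c / al n := by positivity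
        linarith
      rw [neg_div, Real.exp_neg]
      have h4 : 0 < (c / al n) ^ 2 / 2 := by positivity
      calc (Real.exp (c / al n))⁻¹ ≤ ((c / al n) ^ 2 / 2)⁻¹ := inv_anti₀ h4 h3
        _ = 2 * s ^ 4 / c ^ 2 := by
            rw [hsα]
            field_simp
    calc 2 * Real.pi * (C * Real.exp (-c / (al n))) ≤ 2 * Real.pi * (C * (2 * s ^ 4 / c ^ 2)) := by
          gcongr
      _ = (16 * Real.pi * C * s) * (s ^ 3 / (4 * c ^ 2)) := by
          field_simp
          ring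
      _ ≤ (E * c ^ 2) * (s ^ 3 / (4 * c ^ 2)) := by
          apply mul_le_mul_of_nonneg_right _ (by positivity)
          exact (mul_le_mul_of_nonneg_left hsδ (by positivity)).trans hδE
      _ = E / 4 * s ^ 3 := by field_simp
  have hfin : E / 2 * s ^ 3 ≤ 2 * Real.pi * qq (2 * n) (al n) n := by
    have : s ^ 3 * E - E / 4 * s ^ 3 - E / 4 * s ^ 3 = E / 2 * s ^ 3 := by ring
    linarith
  rw [show E / (4 * Real.pi) * s ^ 3 = (E / 2 * s ^ 3) / (2 * Real.pi) by field_simp; ring,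
    div_le_iff₀ (by positivity)]
  linarith

end Pool.Agent.Helper79.ZC
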