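import Pool.Agent.Helper79.ZC.Stmts

set_option autoImplicit false

/-! Module MEAN: the mean of the Boltzmann measure. -/

namespace Pool.Agent.Helper79.ZC

open scoped Classical
open Filter Topology MeasureTheory

theorem mean_geo (z : ℝ) (M : ℕ) : (∑ k ∈ Finset.Icc 1 M, (k : ℝ) * z ^ k) * (1 - z) ^ 2
    = z - (M + 1) * z ^ (M + 1) + M * z ^ (M + 2) := by
  induction M with
  | zero => simp
  | succ M ih =>
    rw [Finset.sum_Icc_succ_top (by omega), add_mul, ih]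
    push_cast
    ring

theorem mean_cosh (v : ℝ) (hv : 0 < v) : Real.exp (-v) / (1 - Real.exp (-v)) ^ 2
    = 1 / (2 * Real.cosh v - 2) := by
  have h1 : 1 - Real.exp (-v) ≠ 0 := by
    have : Real.exp (-v) < 1 := by rw [Real.exp_lt_one_iff]; linarith
    linarith
  have h2 : (1 - Real.exp (-v)) ^ 2 = Real.exp (-v) * (2 * Real.cosh v - 2) := by
    rw [Real.cosh_eq]
    have h3 : Real.exp (-v) * Real.exp v = 1 := by rw [← Real.exp_add]; simp
    linear_combination (-1 : ℝ) * h3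
  have h4 := Real.exp_pos (-v)
  have h5 : 2 * Real.cosh v - 2 ≠ 0 := by
    intro hc
    rw [hc, mul_zero] at h2
    exact h1 (pow_eq_zero_iff (two_ne_zero) |>.1 h2)
  rw [h2]
  field_simp

theorem mean_up (v : ℝ) (hv : 0 < v) : Real.exp (-v) / (1 - Real.exp (-v)) ^ 2 ≤ 1 / v ^ 2 := by
  rw [mean_cosh v hv]
  apply one_div_le_one_div_of_le (by positivity)
  have h1 : v / 2 ≤ Real.sinh (v / 2) := Real.self_le_sinh_iff.2 (by linarith)
  have h2 := Real.cosh_two_mul (v / 2)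
  rw [show 2 * (v / 2) = v by ring, Real.cosh_sq] at h2
  have h3 : (v / 2) ^ 2 ≤ Real.sinh (v / 2) ^ 2 := pow_le_pow_left₀ (by linarith) h1 2
  nlinarith

theorem mean_dn (v : ℝ) (hv : 0 < v) (hv1 : v ≤ 1) :
    1 / v ^ 2 - 1 / 2 ≤ Real.exp (-v) / (1 - Real.exp (-v)) ^ 2 := by
  rw [mean_cosh v hv]
  have h0 : v ^ 2 ≤ 1 := pow_le_one₀ hv.le hv1
  have h1 : Real.cosh v ≤ Real.exp (v ^ 2 / 2) := Real.cosh_le_exp_half_sq v
  have h2 := Real.abs_exp_sub_one_sub_id_le (x := v ^ 2 / 2) (by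
    rw [abs_of_nonneg (by positivity)]
    linarith)
  have h3 := (abs_le.1 h2).2
  have h4 : 2 * Real.cosh v - 2 ≤ v ^ 2 * (1 + v ^ 2 / 2) := by nlinarith
  have h5 : v ^ 2 ≤ 2 * Real.cosh v - 2 := by
    have h1 : v / 2 ≤ Real.sinh (v / 2) := Real.self_le_sinh_iff.2 (by linarith)
    have h2 := Real.cosh_two_mul (v / 2)
    rw [show 2 * (v / 2) = v by ring, Real.cosh_sq] at h2
    have h3 : (v / 2) ^ 2 ≤ Real.sinh (v / 2) ^ 2 := pow_le_pow_left₀ (by linarith) h1 2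
    nlinarith
  have hv2 : 0 < v ^ 2 := by positivity
  have h6 : 0 < 2 * Real.cosh v - 2 := by linarith
  calc 1 / v ^ 2 - 1 / 2 ≤ 1 / (v ^ 2 * (1 + v ^ 2 / 2)) := by
        rw [le_div_iff₀ (by positivity)]
        have h7 : (1 / v ^ 2 - 1 / 2) * (v ^ 2 * (1 + v ^ 2 / 2)) = 1 - (v ^ 2) ^ 2 / 4 := by
          field_simp
          ring
        rw [h7]
        nlinarith
    _ ≤ 1 / (2 * Real.cosh v - 2) := one_div_le_one_div_of_le h6 h4

/-- inner sums -/
theorem mean_in_up (v : ℝ) (hv : 0 < v) (M : ℕ) :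
    ∑ k ∈ Finset.Icc 1 M, (k : ℝ) * Real.exp (-v) ^ k ≤ 1 / v ^ 2 := by
  set z := Real.exp (-v) with hz
  have hz0 : 0 < z := Real.exp_pos _
  have hz1 : z < 1 := by rw [hz, Real.exp_lt_one_iff]; linarith
  have hq : 0 < (1 - z) ^ 2 := by
    have : 0 < 1 - z := by linarith
    positivity
  refine le_trans ?_ (mean_up v hv)
  rw [le_div_iff₀ hq, mean_geo z M]
  have h1 : (M : ℝ) * z ^ (M + 2) ≤ (M + 1) * z ^ (M + 1) := by
    have h2 : z ^ (M + 2) ≤ z ^ (M + 1) := pow_le_pow_of_le_one hz0.le hz1.le (by omega)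
    have h3 : (0 : ℝ) ≤ M := Nat.cast_nonneg M
    have h4 : 0 < z ^ (M + 1) := by positivity
    nlinarith
  linarith

theorem mean_in_dn (v : ℝ) (hv : 0 < v) (hv1 : v ≤ 1) (M : ℕ) :
    1 / v ^ 2 - 1 / 2 - (M + 1) * Real.exp (-v) ^ M * (1 / v ^ 2)
      ≤ ∑ k ∈ Finset.Icc 1 M, (k : ℝ) * Real.exp (-v) ^ k := by
  set z := Real.exp (-v) with hz
  have hz0 : 0 < z := Real.exp_pos _
  have hz1 : z < 1 := by rw [hz, Real.exp_lt_one_iff]; linarith
  have hq : 0 < (1 - z) ^ 2 := by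
    have : 0 < 1 - z := by linarith
    positivity
  have h1 := mean_dn v hv hv1
  have h2 := mean_up v hv
  rw [← hz] at h1 h2
  have h3 : (M + 1) * z ^ M * (z / (1 - z) ^ 2) ≤ (M + 1) * z ^ M * (1 / v ^ 2) :=
    mul_le_mul_of_nonneg_left h2 (by positivity)
  have h4 : z / (1 - z) ^ 2 - (M + 1) * z ^ M * (z / (1 - z) ^ 2)
      ≤ ∑ k ∈ Finset.Icc 1 M, (k : ℝ) * z ^ k := by
    have h5 : z / (1 - z) ^ 2 - (M + 1) * z ^ M * (z / (1 - z) ^ 2)
        = (z - (M + 1) * z ^ (M + 1)) / (1 - z) ^ 2 := by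
      field_simp
      ring
    rw [h5, div_le_iff₀ hq, mean_geo z M]
    have : 0 ≤ (M : ℝ) * z ^ (M + 2) := by positivity
    linarith
  linarith

theorem mean_al_sq {n : ℕ} (hn : 1 ≤ n) : (Real.pi ^ 2 / 6) / (al n) ^ 2 = n := by
  have h0 : (0 : ℝ) < n := by exact_mod_cast hn
  have hpi := Real.pi_pos
  unfold al
  rw [div_pow, Real.sq_sqrt (by positivity)]
  field_simp

theorem mean_al_pos {n : ℕ} (hn : 1 ≤ n) : 0 < al n := by
  have : (0 : ℝ) < n := by exact_mod_cast hn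
  have := Real.pi_pos
  unfold al
  positivity

/-- partial sums of `∑ 1 / j ^ 2` -/
theorem mean_zeta_up (J : ℕ) : ∑ j ∈ Finset.range J, 1 / ((j : ℝ) + 1) ^ 2 ≤ Real.pi ^ 2 / 6 := by
  have h1 : HasSum (fun j : ℕ => (1 : ℝ) / ((j : ℝ) + 1) ^ 2) (Real.pi ^ 2 / 6) := by
    have h := (hasSum_nat_add_iff (f := fun n : ℕ => (1 : ℝ) / (n : ℝ) ^ 2) 1).2
      (by simpa using hasSum_zeta_two)
    simpa using h
  exact sum_le_hasSum _ (fun _ _ => by positivity) h1

theorem mean_zeta_dn (J : ℕ) (hJ : 1 ≤ J) :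
    Real.pi ^ 2 / 6 - 1 / (J : ℝ) ≤ ∑ j ∈ Finset.range J, 1 / ((j : ℝ) + 1) ^ 2 := by
  have h1 : HasSum (fun j : ℕ => (1 : ℝ) / ((j : ℝ) + 1) ^ 2) (Real.pi ^ 2 / 6) := by
    have h := (hasSum_nat_add_iff (f := fun n : ℕ => (1 : ℝ) / (n : ℝ) ^ 2) 1).2
      (by simpa using hasSum_zeta_two)
    simpa using h
  have h2 : ∀ᶠ N : ℕ in atTop, ∑ j ∈ Finset.range N, 1 / ((j : ℝ) + 1) ^ 2
      ≤ (∑ j ∈ Finset.range J, 1 / ((j : ℝ) + 1) ^ 2) + 1 / (J : ℝ) := by
    filter_upwards [eventually_ge_atTop J] with N hN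
    have h3 := sum_Ioc_inv_sq_le_sub (α := ℝ) (by omega : J ≠ 0) hN
    have h4 : ∑ j ∈ Finset.range N, 1 / ((j : ℝ) + 1) ^ 2
        = (∑ j ∈ Finset.range J, 1 / ((j : ℝ) + 1) ^ 2) + ∑ i ∈ Finset.Ioc J N, ((i : ℝ) ^ 2)⁻¹ := by
      rw [← Finset.sum_range_add_sum_Ico _ hN]
      congr 1
      rw [Finset.sum_Ico_eq_sum_range]
      have e : Finset.Ioc J N = (Finset.range (N - J)).image (fun i => J + i + 1) := by
        ext x
        simp only [Finset.mem_Ioc, Finset.mem_image, Finset.mem_range]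
        constructor
        · rintro ⟨h1, h2⟩
          exact ⟨x - J - 1, by omega, by omega⟩
        · rintro ⟨i, hi, rfl⟩
          omega
      rw [e, Finset.sum_image (by
        intro a _ b _ hab
        dsimp only at hab
        omega)]
      apply Finset.sum_congr rfl
      intro i _
      push_cast
      rw [one_div]
    rw [h4]
    have h5 : (0 : ℝ) ≤ (N : ℝ)⁻¹ := by positivity
    rw [one_div (J : ℝ)]
    linarith
  have h3 := le_of_tendsto h1.tendsto_sum_nat h2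
  linarith

theorem mean_swap (a : ℝ) (M J : ℕ) : ∑ k ∈ Finset.Icc 1 M, (k : ℝ) *
    (∑ j ∈ Finset.range J, Real.exp (-a * k) ^ (j + 1))
    = ∑ j ∈ Finset.range J, ∑ k ∈ Finset.Icc 1 M, (k : ℝ) * Real.exp (-(a * (j + 1))) ^ k := by
  simp_rw [Finset.mul_sum]
  rw [Finset.sum_comm]
  apply Finset.sum_congr rfl
  intro j _
  apply Finset.sum_congr rfl
  intro k _
  congr 1
  rw [← Real.exp_nat_mul, ← Real.exp_nat_mul]
  congr 1
  push_cast
  ring

theorem mean_geo_sum (y : ℝ) (hy1 : y < 1) (J : ℕ) :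
    ∑ j ∈ Finset.range J, y ^ (j + 1) = y / (1 - y) - y ^ (J + 1) / (1 - y) := by
  induction J with
  | zero => simp
  | succ J ih =>
    rw [Finset.sum_range_succ, ih]
    have : 1 - y ≠ 0 := by linarith
    field_simp
    ring

/-- **Module MEAN.** -/
theorem st_MEAN : ST_MEAN := by
  refine ⟨8, by norm_num, fun n hn => ?_⟩
  have hα := mean_al_pos hn
  have hn0 : (0 : ℝ) < n := by exact_mod_cast hn
  have hpi := Real.pi_pos
  set a := al n with ha
  have hyk : ∀ k ∈ Finset.Icc 1 (2 * n), Real.exp (-a * k) < 1 := by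
    intro k hk
    rw [Real.exp_lt_one_iff]
    have : (1 : ℝ) ≤ k := by exact_mod_cast (Finset.mem_Icc.1 hk).1
    nlinarith
  have hsq : Real.sqrt n * Real.sqrt n = n := Real.mul_self_sqrt hn0.le
  have hsq1 : 1 ≤ Real.sqrt n := by
    rw [Real.one_le_sqrt]
    exact_mod_cast hn
  have hzn : ∀ X : ℝ, (Real.pi ^ 2 / 6 * X) / a ^ 2 = n * X := by
    intro X
    rw [← mean_al_sq hn, ← ha]
    ring
  -- upper bound
  have hup : ∑ k ∈ Finset.Icc 1 (2 * n), (k : ℝ) * Real.exp (-a * k) / (1 - Real.exp (-a * k)) ≤ n := by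
    have hlim : Tendsto (fun J : ℕ => ∑ k ∈ Finset.Icc 1 (2 * n), (k : ℝ) *
        (∑ j ∈ Finset.range J, Real.exp (-a * k) ^ (j + 1))) atTop
        (𝓝 (∑ k ∈ Finset.Icc 1 (2 * n), (k : ℝ) * Real.exp (-a * k) / (1 - Real.exp (-a * k)))) := by
      apply tendsto_finsetSum
      intro k hk
      have h1 := hyk k hk
      have h2 : (k : ℝ) * Real.exp (-a * k) / (1 - Real.exp (-a * k))
          = (k : ℝ) * (Real.exp (-a * k) / (1 - Real.exp (-a * k)) - 0 / (1 - Real.exp (-a * k))) := by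
        rw [zero_div, sub_zero, mul_div_assoc]
      rw [h2]
      apply Tendsto.const_mul
      have h3 : (fun J : ℕ => ∑ j ∈ Finset.range J, Real.exp (-a * k) ^ (j + 1))
          = fun J : ℕ => Real.exp (-a * k) / (1 - Real.exp (-a * k))
            - Real.exp (-a * k) ^ (J + 1) / (1 - Real.exp (-a * k)) :=
        funext fun J => mean_geo_sum _ h1 J
      rw [h3]
      apply Tendsto.sub tendsto_const_nhds
      apply Tendsto.div_const
      exact (tendsto_pow_atTop_nhds_zero_of_lt_one (Real.exp_pos _).le h1).comp (tendsto_add_atTop_nat 1)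
    apply le_of_tendsto' hlim
    intro J
    rw [mean_swap]
    calc _ ≤ ∑ j ∈ Finset.range J, 1 / (a * ((j : ℝ) + 1)) ^ 2 := by
          apply Finset.sum_le_sum
          intro j _
          exact mean_in_up _ (by positivity) _
      _ = (∑ j ∈ Finset.range J, 1 / ((j : ℝ) + 1) ^ 2) / a ^ 2 := by
          rw [Finset.sum_div]
          apply Finset.sum_congr rfl
          intro j _
          rw [mul_pow]
          field_simp
      _ ≤ (Real.pi ^ 2 / 6) / a ^ 2 := div_le_div_of_nonneg_right (mean_zeta_up J) (by positivity)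
      _ = n := mean_al_sq hn
  have hS0 : 0 ≤ ∑ k ∈ Finset.Icc 1 (2 * n), (k : ℝ) * Real.exp (-a * k) / (1 - Real.exp (-a * k)) := by
    apply Finset.sum_nonneg
    intro k hk
    have := hyk k hk
    have h2 : 0 ≤ 1 - Real.exp (-a * k) := by linarith
    positivity
  rw [abs_le]
  refine ⟨?_, by linarith [hup, Real.sqrt_nonneg (n : ℝ)]⟩
  rcases Nat.lt_or_ge n 2 with hn2 | hn2
  · have h1 : (n : ℝ) ≤ 1 := by exact_mod_cast (by omega : n ≤ 1)
    linarith
  -- now `a ≤ 1`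
  have hn2' : (2 : ℝ) ≤ n := by exact_mod_cast hn2
  have ha2 : a ^ 2 * n = Real.pi ^ 2 / 6 := by
    have := mean_al_sq hn
    rw [← ha] at this
    rw [div_eq_iff (by positivity)] at this
    linarith
  have ha1 : a ≤ 1 := by
    have h1 : a ^ 2 ≤ 1 := by
      have : Real.pi ^ 2 / 6 ≤ 2 := by nlinarith [Real.pi_lt_d2, Real.pi_pos]
      nlinarith
    nlinarith
  have hainv : 1 / a ≤ Real.sqrt n := by
    rw [div_le_iff₀ hα]
    have h1 : 1 ≤ (Real.sqrt n * a) ^ 2 := by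
      rw [mul_pow, Real.sq_sqrt hn0.le]
      nlinarith [Real.pi_gt_three]
    have h2 : 0 ≤ Real.sqrt n * a := by positivity
    nlinarith
  set J := ⌊1 / a⌋₊ with hJ
  have h1a : 1 ≤ 1 / a := by
    rw [le_div_iff₀ hα]
    linarith
  have hJ1 : 1 ≤ J := Nat.one_le_floor_iff _ |>.2 h1a
  have hJ2 : (J : ℝ) ≤ 1 / a := Nat.floor_le (by positivity)
  have hJ3 : 1 / a < J + 1 := Nat.lt_floor_add_one _
  have hJr : (1 : ℝ) ≤ J := by exact_mod_cast hJ1
  have hJ4 : 1 / a ≤ 2 * J := by linarith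
  have hlow : ∑ k ∈ Finset.Icc 1 (2 * n), (k : ℝ) *
      (∑ j ∈ Finset.range J, Real.exp (-a * k) ^ (j + 1)) ≤
      ∑ k ∈ Finset.Icc 1 (2 * n), (k : ℝ) * Real.exp (-a * k) / (1 - Real.exp (-a * k)) := by
    apply Finset.sum_le_sum
    intro k hk
    have h1 := hyk k hk
    rw [mean_geo_sum _ h1 J, mul_div_assoc]
    apply mul_le_mul_of_nonneg_left _ (Nat.cast_nonneg k)
    have h2 : 0 ≤ 1 - Real.exp (-a * k) := by linarith
    have h3 : 0 ≤ Real.exp (-a * k) ^ (J + 1) / (1 - Real.exp (-a * k)) := by positivity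
    linarith
  rw [mean_swap] at hlow
  have hterm : ∀ j ∈ Finset.range J, (1 / (a * ((j : ℝ) + 1)) ^ 2) *
      (1 - (((2 * n : ℕ) : ℝ) + 1) * Real.exp (-a) ^ (2 * n)) - 1 / 2
      ≤ ∑ k ∈ Finset.Icc 1 (2 * n), (k : ℝ) * Real.exp (-(a * ((j : ℝ) + 1))) ^ k := by
    intro j hj
    have hj1 : ((j : ℝ) + 1) ≤ J := by exact_mod_cast Finset.mem_range.1 hj
    have hv1 : a * ((j : ℝ) + 1) ≤ 1 := by
      have : a * ((j : ℝ) + 1) ≤ a * (1 / a) := mul_le_mul_of_nonneg_left (hj1.trans hJ2) hα.le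
      rwa [mul_one_div_cancel hα.ne'] at this
    have h1 := mean_in_dn (a * ((j : ℝ) + 1)) (by positivity) hv1 (2 * n)
    have h2 : Real.exp (-(a * ((j : ℝ) + 1))) ^ (2 * n) ≤ Real.exp (-a) ^ (2 * n) := by
      apply pow_le_pow_left₀ (Real.exp_pos _).le
      apply Real.exp_le_exp.2
      have : (0 : ℝ) ≤ j := Nat.cast_nonneg j
      nlinarith
    have h3 : (((2 * n : ℕ) : ℝ) + 1) * Real.exp (-(a * ((j : ℝ) + 1))) ^ (2 * n) * (1 / (a * ((j : ℝ) + 1)) ^ 2)
        ≤ (((2 * n : ℕ) : ℝ) + 1) * Real.exp (-a) ^ (2 * n) * (1 / (a * ((j : ℝ) + 1)) ^ 2) := by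
      gcongr
    linarith
  have hsum := Finset.sum_le_sum hterm
  rw [Finset.sum_sub_distrib, ← Finset.sum_mul, Finset.sum_const, Finset.card_range,
    nsmul_eq_mul] at hsum
  -- the exponential factor
  have hexp : (((2 * n : ℕ) : ℝ) + 1) * Real.exp (-a) ^ (2 * n) ≤ 5 / n := by
    rw [← Real.exp_nat_mul]
    have h2n : ((2 * n : ℕ) : ℝ) = 2 * n := by push_cast; ring
    rw [h2n]
    have h1 : 2 * Real.sqrt n ≤ 2 * n * a := by
      have h2 : Real.sqrt n * 1 ≤ Real.sqrt n * (Real.sqrt n * a) := by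
        apply mul_le_mul_of_nonneg_left _ (Real.sqrt_nonneg _)
        rw [div_le_iff₀ hα] at hainv
        exact hainv
      rw [← mul_assoc, hsq] at h2
      linarith
    have h3 : (2 * Real.sqrt n) ^ 4 / 24 ≤ Real.exp (2 * n * a) := by
      refine le_trans ?_ (Real.exp_le_exp.2 h1)
      have h4 := Real.pow_div_factorial_le_exp (2 * Real.sqrt n) (by positivity) 4
      norm_num [Nat.factorial] at h4 ⊢
      exact h4
    have h5 : (2 * Real.sqrt n) ^ 4 = 16 * (n : ℝ) ^ 2 := by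
      calc (2 * Real.sqrt n) ^ 4 = 16 * (Real.sqrt n * Real.sqrt n) ^ 2 := by ring
        _ = 16 * (n : ℝ) ^ 2 := by rw [hsq]
    rw [h5] at h3
    have h6 : Real.exp (2 * n * (-a)) ≤ 3 / (2 * (n : ℝ) ^ 2) := by
      rw [show 2 * (n : ℝ) * (-a) = -(2 * n * a) by ring, Real.exp_neg]
      calc (Real.exp (2 * n * a))⁻¹ ≤ (16 * (n : ℝ) ^ 2 / 24)⁻¹ := inv_anti₀ (by positivity) h3
        _ = 3 / (2 * (n : ℝ) ^ 2) := by field_simp; norm_num
    calc (2 * (n : ℝ) + 1) * Real.exp (2 * n * (-a)) ≤ (2 * n + 1) * (3 / (2 * (n : ℝ) ^ 2)) :=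
          mul_le_mul_of_nonneg_left h6 (by positivity)
      _ ≤ 5 / n := by
          rw [mul_div_assoc', div_le_div_iff₀ (by positivity) hn0]
          nlinarith
  set P := ∑ j ∈ Finset.range J, 1 / (a * ((j : ℝ) + 1)) ^ 2 with hP
  have hP1 : P = (∑ j ∈ Finset.range J, 1 / ((j : ℝ) + 1) ^ 2) / a ^ 2 := by
    rw [hP, Finset.sum_div]
    apply Finset.sum_congr rfl
    intro j _
    rw [mul_pow]
    field_simp
  have hPup : P ≤ n := by
    rw [hP1, ← mean_al_sq hn, ← ha]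
    exact div_le_div_of_nonneg_right (mean_zeta_up J) (by positivity)
  have hPdn : n - 2 * (1 / a) ≤ P := by
    rw [hP1]
    have h1 := div_le_div_of_nonneg_right (mean_zeta_dn J hJ1) (by positivity : 0 ≤ a ^ 2)
    refine le_trans ?_ h1
    rw [sub_div]
    have h2 := mean_al_sq hn
    rw [← ha] at h2
    rw [h2]
    have h3 : 1 / (J : ℝ) / a ^ 2 ≤ 2 * (1 / a) := by
      rw [div_div, div_le_iff₀ (by positivity)]
      rw [div_le_iff₀ hα] at hJ4
      have : 2 * (1 / a) * (J * a ^ 2) = 2 * J * a := by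
        field_simp
      rw [this]
      exact hJ4
    linarith
  have hP0 : 0 ≤ P := Finset.sum_nonneg fun _ _ => by positivity
  have hPe : P * ((((2 * n : ℕ) : ℝ) + 1) * Real.exp (-a) ^ (2 * n)) ≤ 5 := by
    calc P * ((((2 * n : ℕ) : ℝ) + 1) * Real.exp (-a) ^ (2 * n)) ≤ n * (5 / n) :=
          mul_le_mul hPup hexp (by positivity) hn0.le
      _ = 5 := by field_simp
  have hfin : P * (1 - (((2 * n : ℕ) : ℝ) + 1) * Real.exp (-a) ^ (2 * n)) - J * (1 / 2)
      ≤ ∑ k ∈ Finset.Icc 1 (2 * n), (k : ℝ) * Real.exp (-a * k) / (1 - Real.exp (-a * k)) :=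
    hsum.trans hlow
  have e : P * (1 - (((2 * n : ℕ) : ℝ) + 1) * Real.exp (-a) ^ (2 * n))
      = P - P * ((((2 * n : ℕ) : ℝ) + 1) * Real.exp (-a) ^ (2 * n)) := by ring
  rw [e] at hfin
  linarith

end Pool.Agent.Helper79.ZC
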